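import Pool.Agent.helper29.RPQ.SpecP
import Pool.Agent.helper22.MS.GKF

/-! # Project RPQ (MP_07c750_an), row GKD -/

set_option autoImplicit false

open scoped MatrixGroups ContDiff Topology UpperHalfPlane ComplexConjugate
open UpperHalfPlane MeasureTheory Filter Set

namespace Pool.Agent.RPQ

open Pool.Agent.RS
open Pool.Agent.MS (BA BB st pf gk Dk amk)

theorem GKD_int (c' c : ℍ → ℂ) (r : ℝ) (k : SL(2, ℝ)) (x τ : ℝ) :
    ((Real.exp (-τ) : ℝ) : ℂ) * (pk r c' (pt x τ) * conj (pk r c (k⁻¹ • pt x τ))) =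
      cc c' x τ * amk (fun z => conj (c z)) k x τ *
        Complex.exp (((r * Real.log (Dk k x τ) : ℝ) : ℂ) * Complex.I) := by
  have hD := Pool.Agent.MS.GKF_Dpos k x τ
  have hpos : 0 < Real.exp τ / Dk k x τ := by positivity
  unfold pk amk cc
  rw [map_mul, Pool.Agent.MS.GKF_im]
  have h1 : (pt x τ).im = Real.exp τ := rfl
  rw [h1]
  have e1 : ((Real.exp τ : ℝ) : ℂ) ^ ((1 / 2 : ℂ) + (r : ℂ) * Complex.I) = Complex.exp (((1 / 2 : ℂ) + (r : ℂ) * Complex.I) * (τ : ℂ)) := by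
    rw [Complex.cpow_def_of_ne_zero (by exact_mod_cast (Real.exp_pos τ).ne'), ← Complex.ofReal_log (Real.exp_pos τ).le, Real.log_exp, mul_comm]
  have e2 : ((Real.exp τ / Dk k x τ : ℝ) : ℂ) ^ ((1 / 2 : ℂ) + (r : ℂ) * Complex.I) =
      Complex.exp (((1 / 2 : ℂ) + (r : ℂ) * Complex.I) * ((τ - Real.log (Dk k x τ) : ℝ) : ℂ)) := by
    rw [Complex.cpow_def_of_ne_zero (by exact_mod_cast hpos.ne'), ← Complex.ofReal_log hpos.le, Real.log_div (Real.exp_pos τ).ne' hD.ne', Real.log_exp, mul_comm]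
  have e2' : conj (Complex.exp (((1 / 2 : ℂ) + (r : ℂ) * Complex.I) * ((τ - Real.log (Dk k x τ) : ℝ) : ℂ))) =
      Complex.exp (((1 / 2 : ℂ) - (r : ℂ) * Complex.I) * ((τ - Real.log (Dk k x τ) : ℝ) : ℂ)) := by
    rw [← Complex.exp_conj, map_mul, map_add, map_mul, Complex.conj_I, Complex.conj_ofReal, Complex.conj_ofReal,
      map_div₀, map_one, Complex.conj_ofNat]
    congr 1
    ring
  have e3 : ((Dk k x τ ^ (-(1 / 2 : ℝ)) : ℝ) : ℂ) = Complex.exp (((-(1 / 2) * Real.log (Dk k x τ) : ℝ)) : ℂ) := by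
    rw [Real.rpow_def_of_pos hD, ← Complex.ofReal_exp]
    congr 2
    ring
  have e4 : ((Real.exp (-τ) : ℝ) : ℂ) = Complex.exp ((-τ : ℝ) : ℂ) := Complex.ofReal_exp _
  rw [e1, e2, e2', e3, e4]
  have key : Complex.exp ((-τ : ℝ) : ℂ) * (Complex.exp (((1 / 2 : ℂ) + (r : ℂ) * Complex.I) * (τ : ℂ)) *
      Complex.exp (((1 / 2 : ℂ) - (r : ℂ) * Complex.I) * ((τ - Real.log (Dk k x τ) : ℝ) : ℂ))) =
      Complex.exp (((-(1 / 2) * Real.log (Dk k x τ) : ℝ)) : ℂ) *
        Complex.exp (((r * Real.log (Dk k x τ) : ℝ) : ℂ) * Complex.I) := by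
    rw [← Complex.exp_add, ← Complex.exp_add, ← Complex.exp_add]
    congr 1
    push_cast
    ring
  linear_combination (c' (pt x τ) * conj (c (k⁻¹ • pt x τ))) * key

/-- Row GKD. -/
theorem GKD_proof : GKD_stmt := by
  intro R c1 c2 h1 h2
  have hpk1 := A_FL0.2.1 (1 / 4) R _ h1
  have hpk2 := A_FL0.2.1 (1 / 4) R _ h2
  have hcont : ∀ c : ℍ → ℂ, Tst (pk R c) → Continuous (pk R c) := fun c h =>
    (QU.CA1_cont (pk R c)).1 (ContDiffOn.of_le h.1 (by simp))
  have hc1 := hcont _ hpk1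
  have hc2 := hcont _ hpk2
  have hsm : ∀ b : SL(2, ℝ), Continuous (fun z : ℍ => pk R c1 z * conj (pk R c2 (b⁻¹ • z))) := fun b =>
    hc1.mul (Complex.continuous_conj.comp (hc2.comp (continuous_const_smul b⁻¹)))
  refine ⟨?_, fun b => ⟨?_, ?_⟩⟩
  · obtain ⟨M, hM⟩ := hpk2.2.exists_bound_of_continuous hc2
    have hint : Integrable (fun z : ℍ => ‖pk R c1 z‖ * M) :=
      (hc1.integrable_of_hasCompactSupport hpk1.2).norm.mul_const M
    change Continuous (fun b : SL(2, ℝ) => ∫ z : ℍ, pk R c1 z * conj (pk R c2 (b⁻¹ • z)))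
    have : FirstCountableTopology SL(2, ℝ) := by
      have h : FirstCountableTopology (Matrix (Fin 2) (Fin 2) ℝ) := inferInstanceAs (FirstCountableTopology (Fin 2 → Fin 2 → ℝ))
      have h2 : Topology.IsInducing (fun A : SL(2, ℝ) => (A.1 : Matrix (Fin 2) (Fin 2) ℝ)) := Topology.IsInducing.subtypeVal
      exact h2.firstCountableTopology
    refine MeasureTheory.continuous_of_dominated (bound := fun z => ‖pk R c1 z‖ * M) ?_ ?_ hint ?_
    · intro b
      exact (hsm b).aestronglyMeasurable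
    · intro b
      refine Eventually.of_forall fun z => ?_
      rw [norm_mul, RCLike.norm_conj]
      exact mul_le_mul_of_nonneg_left (hM _) (norm_nonneg _)
    · refine Eventually.of_forall fun z => ?_
      have hk : Continuous (fun b : SL(2, ℝ) => b⁻¹ • z) := continuous_inv.smul continuous_const
      exact continuous_const.mul (Complex.continuous_conj.comp (hc2.comp hk))
  · intro hne
    have hex : ∃ z : ℍ, pk R c1 z * conj (pk R c2 (b⁻¹ • z)) ≠ 0 := by
      by_contra hc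
      push Not at hc
      apply hne
      unfold gk
      simp [hc]
    obtain ⟨z, hz⟩ := hex
    have h3 : pk R c1 z ≠ 0 := left_ne_zero_of_mul hz
    have h4 : pk R c2 (b⁻¹ • z) ≠ 0 := by
      intro h0
      apply right_ne_zero_of_mul hz
      rw [h0, map_zero]
    have h5 := h1.2 z (left_ne_zero_of_mul h3)
    have h6 := h2.2 (b⁻¹ • z) (left_ne_zero_of_mul h4)
    exact Pool.Agent.MS.GKF_ent b z h5.1 h5.2 h6.1 h6.2
  · have hfs : HasCompactSupport (fun z : ℍ => pk R c1 z * conj (pk R c2 (b⁻¹ • z))) :=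
      hpk1.2.mul_right
    unfold gk
    rw [A_CV1.1 _ (hsm b) hfs]
    refine integral_congr_ae (Eventually.of_forall fun τ => ?_)
    have h3 : ∀ x : ℝ, ((Real.exp (-τ) : ℝ) : ℂ) * (pk R c1 (pt x τ) * conj (pk R c2 (b⁻¹ • pt x τ))) =
        cc c1 x τ * amk (fun z => conj (c2 z)) b x τ *
        Complex.exp (((R * Real.log (Dk b x τ) : ℝ) : ℂ) * Complex.I) := fun x => GKD_int c1 c2 R b x τ
    simp only [h3]

end Pool.Agent.RPQ
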